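import Pool.Agent.Helper77.RL.Goals2

/-!
# Packet RL-SQR: the Galois group of the square
-/

namespace Pool.Agent.Helper30.RL

open Module

theorem l_sqr : Pool.Agent.Helper77.RL.L_SQR := by
  intro p _ n K M L M' _ _ _ _ _ _ _ _ _ _ _ _ h
  have := h.galM
  have := h.galL
  have := h.gal
  have : FiniteDimensional K M := FiniteDimensional.left K M M'
  have : FiniteDimensional K L := FiniteDimensional.left K L M'
  have : FiniteDimensional M M' := FiniteDimensional.right K M M'
  have : FiniteDimensional L M' := FiniteDimensional.right K L M'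
  have hp : p.Prime := Fact.out
  set φ : (M' ≃ₐ[K] M') →* (M ≃ₐ[K] M) × (L ≃ₐ[K] L) :=
    (AlgEquiv.restrictNormalHom M).prod (AlgEquiv.restrictNormalHom L) with hφ
  have hφM : ∀ (f : M' ≃ₐ[K] M') (x : M), algebraMap M M' ((φ f).1 x) = f (algebraMap M M' x) :=
    fun f x => AlgEquiv.restrictNormal_commutes f M x
  have hφL : ∀ (f : M' ≃ₐ[K] M') (y : L), algebraMap L M' ((φ f).2 y) = f (algebraMap L M' y) :=
    fun f y => AlgEquiv.restrictNormal_commutes f L y
  have hinj : Function.Injective φ := by
    rw [injective_iff_map_eq_one]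
    intro f hf
    refine h.gen f (fun x => ?_) fun y => ?_
    · rw [← hφM, hf]
      rfl
    · rw [← hφL, hf]
      rfl
  have hM' : Nat.card (M' ≃ₐ[K] M') = finrank K M' := IsGalois.card_aut_eq_finrank K M'
  have hM : Nat.card (M ≃ₐ[K] M) = finrank K M := IsGalois.card_aut_eq_finrank K M
  have hL : Nat.card (L ≃ₐ[K] L) = finrank K L := IsGalois.card_aut_eq_finrank K L
  have hdM : finrank K M * finrank M M' = finrank K M' := finrank_mul_finrank K M M'
  have hdL : finrank K L * finrank L M' = finrank K M' := finrank_mul_finrank K L M'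
  have hcop : (finrank K M).Coprime (finrank K L) := by
    rw [h.deg]
    exact Nat.Coprime.pow_right n h.cop
  have hdvd : finrank K M * finrank K L ∣ finrank K M' :=
    hcop.mul_dvd_of_dvd_of_dvd ⟨_, hdM.symm⟩ ⟨_, hdL.symm⟩
  have hpos : 0 < finrank K M' := finrank_pos
  have hle : finrank K M * finrank K L ≤ finrank K M' := Nat.le_of_dvd hpos hdvd
  have hcard : Nat.card ((M ≃ₐ[K] M) × (L ≃ₐ[K] L)) = finrank K M * finrank K L := by
    rw [Nat.card_prod, hM, hL]
  have hbij : Function.Bijective φ := by
    refine (Function.Injective.bijective_of_nat_card_le hinj ?_)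
    rw [hcard, hM']
    exact hle
  have heq : finrank K M' = finrank K M * finrank K L := by
    rw [← hcard, ← hM']
    exact Nat.card_congr (Equiv.ofBijective φ hbij)
  have hposM : 0 < finrank K M := finrank_pos
  have hposL : 0 < finrank K L := finrank_pos
  refine ⟨?_, ?_, IsGalois.tower_top_of_isGalois K M M',
    IsGalois.tower_top_of_isGalois K L M', ?_⟩
  · rw [← h.deg]
    exact Nat.eq_of_mul_eq_mul_left hposM (hdM.trans heq)
  · rw [mul_comm] at heq
    exact Nat.eq_of_mul_eq_mul_left hposL (hdL.trans heq)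
  · intro g k
    obtain ⟨f, hf⟩ := hbij.2 (g, k)
    refine ⟨f, fun x => ?_, fun y => ?_⟩
    · rw [← hφM, hf]
    · rw [← hφL, hf]

end Pool.Agent.Helper30.RL
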