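import Pool.Agent.Helper18.RL.Goals

set_option autoImplicit false
set_option linter.unusedSectionVars false

/-!
RL-REA: a cycle of the gadget graph with at most one of `a, b, c` is old.
-/

namespace Pool.Agent.Helper30.RL

open Finset Pool.Agent.Helper37.RG3 Pool.Agent.Helper18.RL

theorem grea : G_REA := by
  intro V _ _ R R' K T a b c x₀ hG hx₀ _hsym hirr hLO hcard
  -- two elements of `T` in `{a, b, c}` are equal
  have huniq : ∀ x y, x ∈ T → y ∈ T → x ∈ ({a, b, c} : Finset V) → y ∈ ({a, b, c} : Finset V) →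
      x = y := by
    intro x y hx hy hx' hy'
    exact Finset.card_le_one.mp hcard x (mem_inter.mpr ⟨hx, hx'⟩) y (mem_inter.mpr ⟨hy, hy'⟩)
  have hfour : ∀ x, x ∈ ({a, b, c, x₀} : Finset V) → x ≠ x₀ → x ∈ ({a, b, c} : Finset V) := by
    intro x hx hne
    simp only [mem_insert, mem_singleton] at hx ⊢
    tauto
  have hxT : x₀ ∉ T := by
    intro hxT
    obtain ⟨_, h5, u, v, hp, huv⟩ := hLO
    obtain ⟨y, hp', hy⟩ := rotate hp huv hxT
    have hyx : y ≠ x₀ := by
      rintro rfl
      exact hirr _ hy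
    have hy3 : y ∈ ({a, b, c} : Finset V) := by
      rcases hG _ _ hy with ⟨_, _, h⟩ | ⟨h, _⟩
      · exact absurd hx₀ h
      · exact hfour y h hyx
    have hyT : y ∈ T := hp'.right_mem
    cases hp' with
    | one => exact hyx rfl
    | @cons S _ z _ h1 h2 h3 =>
      have hzS : z ∈ S := h3.left_mem
      have hzx : z ≠ x₀ := by
        rintro rfl
        exact h2 hzS
      have hz3 : z ∈ ({a, b, c} : Finset V) := by
        rcases hG _ _ h1 with ⟨_, h, _⟩ | ⟨_, h⟩
        · exact absurd hx₀ h
        · exact hfour z h hzx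
      have hzy : z = y := huniq z y (mem_insert_of_mem hzS) hyT hz3 hy3
      subst hzy
      have hS := h3.eq_of_loop
      subst hS
      have : (insert x₀ {z} : Finset V).card ≤ 2 := Finset.card_le_two
      omega
  refine ⟨hxT, hLO.mono ?_⟩
  intro x hx y hy hxy
  rcases hG _ _ hxy with ⟨h, _⟩ | ⟨h1, h2⟩
  · exact h
  · exfalso
    have e := huniq x y hx hy (hfour x h1 (fun h => hxT (h ▸ hx))) (hfour y h2 (fun h => hxT (h ▸ hy)))
    subst e
    exact hirr _ hxy

end Pool.Agent.Helper30.RL
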